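import Mathlib

set_option autoImplicit false

namespace Pool.Agent.Results.MP_05a6d5_al.Counterexample

open Polynomial

/-- The subtractive closure `{h | h + i ∈ I for some i ∈ I}` of an ideal. -/
def scl {S : Type} [CommSemiring S] (I : Ideal S) : Ideal S where
  carrier := {h | ∃ i ∈ I, h + i ∈ I}
  zero_mem' := ⟨0, I.zero_mem, by simp⟩
  add_mem' := by
    rintro a b ⟨i, hi, ha⟩ ⟨j, hj, hb⟩
    exact ⟨i + j, I.add_mem hi hj, by rw [add_add_add_comm]; exact I.add_mem ha hb⟩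
  smul_mem' := by
    rintro c a ⟨i, hi, ha⟩
    exact ⟨c * i, I.mul_mem_left c hi, by rw [smul_eq_mul, ← mul_add]; exact I.mul_mem_left c ha⟩

abbrev S := MvPolynomial (Fin 3) ℕ

noncomputable def pr : S →+* ℤ[X] := MvPolynomial.eval₂Hom (Nat.castRingHom _) ![X, 0, 0]

lemma bounds (u : S) : (∀ i, 0 ≤ (pr u).coeff i) ∧
    2 * (pr u).coeff 0 ≤ (pr u).eval 1 + (pr u).eval (-1) ∧
    2 * (pr u).coeff 1 ≤ (pr u).eval 1 - (pr u).eval (-1) := by
  have : ∃ p : ℕ[X], pr u = p.map (Nat.castRingHom ℤ) := by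
    induction u using MvPolynomial.induction_on with
    | C a => exact ⟨C a, by simp [pr]⟩
    | add p q hp hq =>
      obtain ⟨p', hp⟩ := hp
      obtain ⟨q', hq⟩ := hq
      exact ⟨p' + q', by simp [hp, hq]⟩
    | mul_X p i hp =>
      obtain ⟨p', hp⟩ := hp
      refine ⟨p' * ![X, 0, 0] i, ?_⟩
      rw [map_mul, hp]
      fin_cases i <;> simp [pr]
  obtain ⟨p, hp⟩ := this
  rw [hp]
  refine ⟨fun i => by simp, ?_⟩
  clear hp
  induction p using Polynomial.induction_on' with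
  | add p q hp hq => simp only [Polynomial.map_add, coeff_add, eval_add]; constructor <;> linarith [hp.1, hp.2, hq.1, hq.2]
  | monomial n a =>
    have h0 : (0 : ℤ) ≤ a := by positivity
    simp only [Polynomial.map_monomial, coeff_monomial, eval_monomial, one_pow, eq_natCast]
    rcases neg_one_pow_eq_or ℤ n with h | h <;> rw [h] <;> constructor <;> split_ifs with h1 <;>
      first | omega | (subst h1; simp at h)

lemma root (u : S) (hu : u ∈ scl (Ideal.span {MvPolynomial.X 0 + 1})) : (pr u).eval (-1) = 0 := by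
  have h : ∀ i ∈ Ideal.span {(MvPolynomial.X 0 + 1 : S)}, (pr i).eval (-1) = 0 := fun i hi => by
    obtain ⟨c, rfl⟩ := Ideal.mem_span_singleton'.mp hi
    simp [pr]
  obtain ⟨i, hi, h2⟩ := hu
  simpa [h i hi] using h _ h2

/-- Over the zerosumfree semiring `ℕ` there are ideals `I`, `J` of `ℕ[X,Y,Z]` with
`scl(I) scl(J) ≠ scl(IJ)`. -/
theorem result : ∃ (S₀ : Type) (_ : CommSemiring S₀), (1 : S₀) ≠ 0 ∧
    (∀ a b : S₀, a + b = 0 → a = 0 ∧ b = 0) ∧
    ∃ I J : Ideal (MvPolynomial (Fin 3) S₀), scl I * scl J ≠ scl (I * J) := by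
  refine ⟨ℕ, inferInstance, one_ne_zero, fun a b h => by omega,
    Ideal.span {MvPolynomial.X 0 + 1}, Ideal.span {MvPolynomial.X 0 + 1}, fun h => ?_⟩
  have h1 : (3 + 4 * MvPolynomial.X 0 + MvPolynomial.X 0 ^ 4 : S) ∈
      scl (Ideal.span {MvPolynomial.X 0 + 1} * Ideal.span {MvPolynomial.X 0 + 1}) := by
    rw [Ideal.span_singleton_mul_span_singleton]
    exact ⟨_, Ideal.mem_span_singleton'.mpr ⟨2 * MvPolynomial.X 0, rfl⟩,
      Ideal.mem_span_singleton'.mpr ⟨MvPolynomial.X 0 ^ 2 + 3, by ring⟩⟩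
  rw [← h] at h1
  have h2 := Submodule.mul_induction_on (C := fun w => 4 * (pr w).coeff 1 ≤
    (pr w).eval 1 - (pr w).eval (-1) + 4 * (pr w).coeff 2) h1 (fun u hu v hv => by
      obtain ⟨u0, u1, u2⟩ := bounds u
      obtain ⟨v0, v1, v2⟩ := bounds v
      rw [root u hu] at u1 u2
      rw [root v hv] at v1 v2
      simp only [map_mul, eval_mul, root u hu, coeff_mul, Finset.Nat.sum_antidiagonal_succ,
        Finset.Nat.antidiagonal_zero, Finset.sum_singleton]
      nlinarith [mul_nonneg (sub_nonneg.mpr u2) (sub_nonneg.mpr v2),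
        mul_nonneg (sub_nonneg.mpr u1) (v0 1), mul_nonneg (sub_nonneg.mpr v1) (u0 1),
        mul_nonneg (u0 0) (v0 2), mul_nonneg (u0 2) (v0 0)])
    fun x y hx hy => by simp only [map_add, coeff_add, eval_add]; linarith
  simp [pr, coeff_X, coeff_X_pow] at h2

end Pool.Agent.Results.MP_05a6d5_al.Counterexample
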